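import Pool.Agent.H16.GZ.Targets4

/-!
Row EIN of the board gz: invariance of the energy (helper51).
-/

namespace Pool.Agent.H51.GZ

open MeasureTheory Pool.Agent.H34.GM Pool.Agent.H34.GZ

theorem pf_EIN (hA : T_ALZ) : T_EIN := by
  intro m q _ D y γ g hm1 hq hγ
  obtain ⟨⟨⟨-, hR⟩, hdet⟩, ⟨hQ1, -, hQ, -, -⟩, -, -, hun, -, -⟩ := hA m q hm1 hq
  have hnu : γ.det.natAbs = 1 := (hun γ).1 hγ
  obtain ⟨u, rfl⟩ := hγ
  have hd1 : |(cR (u : ZM m)).det| = 1 := by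
    rw [(hdet _).2, hnu]
    norm_num
  have hQu : cQ q (u : ZM m) * cQ q ((u⁻¹ : (ZM m)ˣ) : ZM m) = 1 := by
    rw [← (hQ _ _).1, Units.mul_inv, hQ1]
  have hQu' : cQ q ((u⁻¹ : (ZM m)ˣ) : ZM m) * cQ q (u : ZM m) = 1 := by
    rw [← (hQ _ _).1, Units.inv_mul, hQ1]
  have hP : ∀ (x : RM m q) (h : Mat m) (w : RM m q), Pz y (cR (u : ZM m) * g) x h w =
      Pz y g (cQ q ((u⁻¹ : (ZM m)ˣ) : ZM m) * x) h w := by
    intro x h w
    unfold Pz
    symm
    rw [← Equiv.tsum_eq (Units.mulRight u)]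
    refine tsum_congr fun α => ?_
    simp only [Units.mulRight_apply]
    have e1 : cQ q (α * (u : ZM m)) * (cQ q ((u⁻¹ : (ZM m)ˣ) : ZM m) * x) = cQ q α * x := by
      rw [(hQ _ _).1, mul_assoc, ← mul_assoc (cQ q (u : ZM m)), hQu, one_mul]
    have e2 : (α * (u : ZM m)).det.natAbs = α.det.natAbs := by
      rw [Matrix.det_mul, Int.natAbs_mul, hnu, mul_one]
    have e3 : aN (cR (α * (u : ZM m))) = aN (cR α) := by
      unfold aN
      rw [(hR _ _).1, Matrix.det_mul, abs_mul, hd1, mul_one]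
    have e4 : aN (cR (u : ZM m) * g) = aN g := by
      unfold aN
      rw [Matrix.det_mul, abs_mul, hd1, one_mul]
    have e5 : kk (aN (cR (α * (u : ZM m)))) h (cR (α * (u : ZM m))) g =
        kk (aN (cR α)) h (cR α) (cR (u : ZM m) * g) := by
      unfold kk
      rw [e3, e4, (hR _ _).1]
      simp only [mul_assoc]
    rw [e1, e2, e5]
    split_ifs <;> rfl
  have hPP : ∀ (x : RM m q) (k : Mat m) (z : RM m q), PPz D y (cR (u : ZM m) * g) x k z =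
      PPz D y g (cQ q ((u⁻¹ : (ZM m)ˣ) : ZM m) * x) k z := by
    intro x k z
    unfold PPz
    simp only [hP]
  unfold Ez
  simp only [hPP]
  exact Equiv.sum_comp (Units.mulLeft (⟨cQ q ((u⁻¹ : (ZM m)ˣ) : ZM m), cQ q (u : ZM m),
    hQu', hQu⟩ : (RM m q)ˣ)) fun x => ∫⁻ k in D, ∑ z : RM m q, (PPz D y g x (mt k) z) ^ 2 ∂(hm m)

end Pool.Agent.H51.GZ
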